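import Mathlib

/-! Intrinsic characterisation of three-function representable relations. -/

open Filter

namespace Pool.Agent.Results.MP_a721b7_an.Char

/-- `x R y ↔ f x < g y < h x` for some real functions `f, g, h` -/
def Representable {X : Type*} (R : X → X → Prop) : Prop :=
  ∃ f g h : X → ℝ, ∀ x y, R x y ↔ f x < g y ∧ g y < h x

/-- `a` and `b` lie in a common set `R(x)` that does not contain `c` -/
def Step {X : Type*} (R : X → X → Prop) (c a b : X) : Prop := ∃ x, R x a ∧ R x b ∧ ¬ R x c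

/-- `a` is joined to `b` by a nonempty finite chain of steps avoiding `c` -/
def Linked {X : Type*} (R : X → X → Prop) (c a b : X) : Prop := Relation.TransGen (Step R c) a b

/-- no asteroidal triple: no three elements any two of which are linked avoiding the third -/
def NoAsteroid {X : Type*} (R : X → X → Prop) : Prop :=
  ¬ ∃ a b c, Linked R c a b ∧ Linked R b a c ∧ Linked R a b c

/-- there is a countable `D ⊆ X` such that whenever `y ∈ R(x)` there are `d, e ∈ D` with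
`y ∈ R(d) ∩ R(e) ⊆ R(x)` -/
def CountablyBased {X : Type*} (R : X → X → Prop) : Prop :=
  ∃ D : Set X, D.Countable ∧
    ∀ x y, R x y → ∃ d ∈ D, ∃ e ∈ D, R d y ∧ R e y ∧ ∀ z, R d z → R e z → R x z

section Order

variable {X : Type*}

structure Ax (Z : Finset X) (E : X → X → X → Prop) : Prop where
  symm : ∀ c ∈ Z, ∀ a ∈ Z, ∀ b ∈ Z, E c a b → E c b a
  trans : ∀ c ∈ Z, ∀ a ∈ Z, ∀ b ∈ Z, ∀ d ∈ Z, E c a b → E c b d → E c a d
  ne : ∀ c ∈ Z, ∀ b ∈ Z, ¬ E c c b
  a1 : ∀ c ∈ Z, ∀ a ∈ Z, ∀ b ∈ Z, ∀ d ∈ Z, E c a b → E d a b ∨ E c a d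
  a2 : ∀ a ∈ Z, ∀ b ∈ Z, ∀ c ∈ Z, E c a b → E b a c → ¬ E a b c

structure Ord (Z : Finset X) (E : X → X → X → Prop) (r : X → X → Prop) : Prop where
  irr : ∀ a ∈ Z, ¬ r a a
  trans : ∀ a ∈ Z, ∀ b ∈ Z, ∀ c ∈ Z, r a b → r b c → r a c
  tot : ∀ a ∈ Z, ∀ b ∈ Z, a ≠ b → r a b ∨ r b a
  ok : ∀ c ∈ Z, ∀ a ∈ Z, ∀ b ∈ Z, E c a b → r a c → r b c

lemma Ord.flip {Z : Finset X} {E : X → X → X → Prop} {r : X → X → Prop} (hE : Ax Z E)
    (h : Ord Z E r) : Ord Z E (fun a b => r b a) := by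
  refine ⟨h.irr, fun a ha b hb c hc h1 h2 => h.trans c hc b hb a ha h2 h1,
    fun a ha b hb hab => (h.tot a ha b hb hab).symm, fun c hc a ha b hb h1 h2 => ?_⟩
  have h3 := hE.symm c hc a ha b hb h1
  have hbc : b ≠ c := by
    rintro rfl
    exact hE.ne b hb a ha h3
  rcases h.tot b hb c hc hbc with h4 | h4
  · exact absurd (h.trans c hc a ha c hc h2 (h.ok c hc b hb a ha h3 h4)) (h.irr c hc)
  · exact h4

lemma base (Z : Finset X) (E : X → X → X → Prop) (hE : Ax Z E) (p q : X)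
    (h : ∀ c ∈ Z, ∀ a ∈ Z, ∀ b ∈ Z, E c a b → a ≠ b → c = p ∨ c = q) : ∃ r, Ord Z E r := by
  classical
  let _ : LinearOrder X := linearOrderOfSTO WellOrderingRel
  let ρ : X → ℕ := fun y => if y = p then 0 else if y = q then 2 else 1
  refine ⟨fun a b => ρ a < ρ b ∨ (ρ a = ρ b ∧ a < b), ?_, ?_, ?_, ?_⟩
  · intro a _; simp
  · rintro a _ b _ c _ (h1 | ⟨h1, h1'⟩) (h2 | ⟨h2, h2'⟩)
    · left; omega
    · left; omega
    · left; omega
    · right; exact ⟨h1.trans h2, h1'.trans h2'⟩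
  · intro a _ b _ hab
    rcases lt_trichotomy (ρ a) (ρ b) with h1 | h1 | h1
    · exact Or.inl (Or.inl h1)
    · rcases lt_or_gt_of_ne hab with h2 | h2
      · exact Or.inl (Or.inr ⟨h1, h2⟩)
      · exact Or.inr (Or.inr ⟨h1.symm, h2⟩)
    · exact Or.inr (Or.inl h1)
  · intro c hc a ha b hb h1 h2
    by_cases hab : a = b
    · rwa [← hab]
    have hac : a ≠ c := by
      rintro rfl
      exact hE.ne a ha b hb h1
    have hbc : b ≠ c := by
      rintro rfl
      exact hE.ne b hb a ha (hE.symm b hb a ha b hb h1)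
    by_cases hp : c = p
    · subst hp
      exfalso
      have e1 : ρ c = 0 := by simp [ρ]
      have e2 : ρ a ≠ 0 := by
        simp only [ρ, if_neg hac]; split_ifs <;> omega
      omega
    · have hq := (h c hc a ha b hb h1 hab).resolve_left hp
      subst hq
      left
      have e1 : ρ c = 2 := by simp [ρ, hp]
      have e2 : ρ b < 2 := by
        simp only [ρ, if_neg hbc]; split_ifs <;> omega
      omega

lemma glue (Z K : Finset X) (E : X → X → X → Prop) (hE : Ax Z E) (c k : X) (hc : c ∈ Z)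
    (hk : k ∈ K) (hK : ∀ y, y ∈ K ↔ y ∈ Z ∧ E c k y) (Y W : Finset X)
    (hY : ∀ y, y ∈ Y ↔ y ∈ Z ∧ (y ∉ K ∨ y = k)) (hW : ∀ y, y ∈ W ↔ y ∈ K ∨ y = c)
    (ihY : ∀ E', Ax Y E' → ∃ r, Ord Y E' r) (ihW : ∀ E', Ax W E' → ∃ r, Ord W E' r) :
    ∃ r, Ord Z E r := by
  classical
  have hKZ : ∀ y ∈ K, y ∈ Z := fun y hy => ((hK y).1 hy).1
  have hkZ := hKZ k hk
  have hcK : c ∉ K := fun h => hE.ne c hc k hkZ (hE.symm c hc k hkZ c hc ((hK c).1 h).2)
  have hKK : ∀ a ∈ K, ∀ b ∈ K, E c a b := fun a ha b hb =>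
    hE.trans c hc a (hKZ a ha) k hkZ b (hKZ b hb)
      (hE.symm c hc k hkZ a (hKZ a ha) ((hK a).1 ha).2) ((hK b).1 hb).2
  have hcl : ∀ a ∈ K, ∀ x ∈ Z, E c a x → x ∈ K := fun a ha x hx h =>
    (hK x).2 ⟨hx, hE.trans c hc k hkZ a (hKZ a ha) x hx ((hK a).1 ha).2 h⟩
  have hout : ∀ x ∈ Z, x ∉ K → ∀ a ∈ K, ∀ b ∈ K, E x a b := fun x hx hxK a ha b hb =>
    (hE.a1 c hc a (hKZ a ha) b (hKZ b hb) x hx (hKK a ha b hb)).resolve_right
      fun h => hxK (hcl a ha x hx h)
  have hlink : ∀ d ∈ Z, ∀ a ∈ K, ∀ x ∈ Z, x ∉ K → E d a x → E d a c := fun d hd a ha x hx hxK h =>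
    (hE.a1 d hd a (hKZ a ha) x hx c hc h).resolve_left fun h' => hxK (hcl a ha x hx h')
  let E' : X → X → X → Prop := fun e a b =>
    if e = k then a ∉ K ∧ b ∉ K ∧ ∃ d ∈ K, E d a b else E e a b
  have hE'k : ∀ a b, E' k a b ↔ a ∉ K ∧ b ∉ K ∧ ∃ d ∈ K, E d a b := by simp [E']
  have hE'n : ∀ e, e ≠ k → ∀ a b, E' e a b ↔ E e a b := by
    intro e he a b; simp [E', he]
  have hYZ : ∀ y ∈ Y, y ∈ Z := fun y hy => ((hY y).1 hy).1
  have hYK : ∀ y ∈ Y, y ≠ k → y ∉ K := fun y hy h => ((hY y).1 hy).2.resolve_right h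
  have key : ∀ x ∈ Z, ∀ y ∈ Z, x ∉ K → y ∉ K → ∀ d ∈ K, E d x y → E x y k → ¬ E y x k := by
    intro x hx y hy hxK hyK d hd h1 h2 h3
    have hdZ := hKZ d hd
    exact hE.a2 x hx y hy d hdZ h1 (hE.trans y hy x hx k hkZ d hdZ h3 (hout y hy hyK k hk d hd))
      (hE.trans x hx y hy k hkZ d hdZ h2 (hout x hx hxK k hk d hd))
  have hAY : Ax Y E' := by
    refine ⟨?_, ?_, ?_, ?_, ?_⟩
    · intro e he a ha b hb h
      by_cases hek : e = k
      · subst hek
        obtain ⟨h1, h2, d, hd, h3⟩ := (hE'k a b).1 h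
        exact (hE'k b a).2 ⟨h2, h1, d, hd, hE.symm d (hKZ d hd) a (hYZ a ha) b (hYZ b hb) h3⟩
      · exact (hE'n e hek _ _).2
          (hE.symm e (hYZ e he) a (hYZ a ha) b (hYZ b hb) ((hE'n e hek _ _).1 h))
    · intro e he x hx y hy z hz h h'
      have hxZ := hYZ x hx
      have hyZ := hYZ y hy
      have hzZ := hYZ z hz
      by_cases hek : e = k
      · subst hek
        obtain ⟨h1, h2, d, hd, h3⟩ := (hE'k _ _).1 h
        obtain ⟨-, h4, d', hd', h5⟩ := (hE'k _ _).1 h'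
        have hdZ := hKZ d hd
        have hdZ' := hKZ d' hd'
        refine (hE'k _ _).2 ⟨h1, h4, ?_⟩
        rcases hE.a1 d hdZ x hxZ y hyZ d' hdZ' h3 with h6 | h6
        · exact ⟨d', hd', hE.trans d' hdZ' x hxZ y hyZ z hzZ h6 h5⟩
        rcases hE.a1 d' hdZ' y hyZ z hzZ d hdZ h5 with h7 | h7
        · exact ⟨d, hd, hE.trans d hdZ x hxZ y hyZ z hzZ h3 h7⟩
        exact absurd (hlink d hdZ d' hd' x hxZ h1 (hE.symm d hdZ x hxZ d' hdZ' h6))
          (hE.a2 d hdZ d' hdZ' c hc (hKK d hd d' hd')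
            (hlink d' hdZ' d hd y hyZ h2 (hE.symm d' hdZ' y hyZ d hdZ h7)))
      · exact (hE'n e hek _ _).2 (hE.trans e (hYZ e he) x hxZ y hyZ z hzZ
          ((hE'n e hek _ _).1 h) ((hE'n e hek _ _).1 h'))
    · intro e he b hb h
      by_cases hek : e = k
      · subst hek
        exact ((hE'k _ _).1 h).1 hk
      · exact hE.ne e (hYZ e he) b (hYZ b hb) ((hE'n e hek _ _).1 h)
    · intro e he a ha b hb d hd h
      have haZ := hYZ a ha
      have hbZ := hYZ b hb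
      by_cases hed : d = e
      · left; rwa [hed]
      by_cases hek : e = k
      · subst hek
        obtain ⟨h1, h2, u, hu, h3⟩ := (hE'k _ _).1 h
        rcases hE.a1 u (hKZ u hu) a haZ b hbZ d (hYZ d hd) h3 with h4 | h4
        · exact Or.inl ((hE'n d hed _ _).2 h4)
        · exact Or.inr ((hE'k _ _).2 ⟨h1, hYK d hd hed, u, hu, h4⟩)
      · rcases hE.a1 e (hYZ e he) a haZ b hbZ d (hYZ d hd) ((hE'n e hek _ _).1 h) with h4 | h4
        · left
          by_cases hdk : d = k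
          · subst hdk
            refine (hE'k _ _).2 ⟨hYK a ha ?_, hYK b hb ?_, d, hk, h4⟩
            · rintro rfl
              exact hE.ne a haZ b hbZ h4
            · rintro rfl
              exact hE.ne b hbZ a haZ (hE.symm b hbZ a haZ b hbZ h4)
          · exact (hE'n d hdk _ _).2 h4
        · exact Or.inr ((hE'n e hek _ _).2 h4)
    · intro a ha b hb e he h1 h2 h3
      have haZ := hYZ a ha
      have hbZ := hYZ b hb
      have heZ := hYZ e he
      by_cases hek : e = k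
      · subst hek
        obtain ⟨g1, g2, d, hd, g3⟩ := (hE'k _ _).1 h1
        have n1 : a ≠ e := fun h => g1 (h ▸ hk)
        have n2 : b ≠ e := fun h => g2 (h ▸ hk)
        exact key a haZ b hbZ g1 g2 d hd g3 ((hE'n a n1 _ _).1 h3) ((hE'n b n2 _ _).1 h2)
      by_cases hbk : b = k
      · subst hbk
        obtain ⟨g1, g2, d, hd, g3⟩ := (hE'k _ _).1 h2
        have n1 : a ≠ b := fun h => g1 (h ▸ hk)
        exact key a haZ e heZ g1 g2 d hd g3
          (hE.symm a haZ b hbZ e heZ ((hE'n a n1 _ _).1 h3)) ((hE'n e hek _ _).1 h1)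
      by_cases hak : a = k
      · subst hak
        obtain ⟨g1, g2, d, hd, g3⟩ := (hE'k _ _).1 h3
        exact key b hbZ e heZ g1 g2 d hd g3
          (hE.symm b hbZ a haZ e heZ ((hE'n b hbk _ _).1 h2))
          (hE.symm e heZ a haZ b hbZ ((hE'n e hek _ _).1 h1))
      exact hE.a2 a haZ b hbZ e heZ ((hE'n e hek _ _).1 h1) ((hE'n b hbk _ _).1 h2)
        ((hE'n a hak _ _).1 h3)
  have hWZ : ∀ y ∈ W, y ∈ Z := fun y hy => by
    rcases (hW y).1 hy with h | h
    · exact hKZ y h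
    · rwa [h]
  have hAW : Ax W E :=
    ⟨fun c hc a ha b hb => hE.symm c (hWZ c hc) a (hWZ a ha) b (hWZ b hb),
      fun c hc a ha b hb d hd => hE.trans c (hWZ c hc) a (hWZ a ha) b (hWZ b hb) d (hWZ d hd),
      fun c hc b hb => hE.ne c (hWZ c hc) b (hWZ b hb),
      fun c hc a ha b hb d hd => hE.a1 c (hWZ c hc) a (hWZ a ha) b (hWZ b hb) d (hWZ d hd),
      fun c hc a ha b hb => hE.a2 c (hWZ c hc) a (hWZ a ha) b (hWZ b hb)⟩
  have hkY : k ∈ Y := (hY k).2 ⟨hkZ, Or.inr rfl⟩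
  have hoY : ∀ y ∈ Z, y ∉ K → y ∈ Y := fun y hy h => (hY y).2 ⟨hy, Or.inl h⟩
  have hcY := hoY c hc hcK
  have hKW : ∀ y ∈ K, y ∈ W := fun y hy => (hW y).2 (Or.inl hy)
  have hcW : c ∈ W := (hW c).2 (Or.inr rfl)
  have hkc : k ≠ c := fun h => hcK (h ▸ hk)
  obtain ⟨r1, o1, s1⟩ : ∃ r1, Ord Y E' r1 ∧ r1 k c := by
    obtain ⟨r, o⟩ := ihY E' hAY
    rcases o.tot k hkY c hcY hkc with h | h
    · exact ⟨r, o, h⟩
    · exact ⟨_, o.flip hAY, h⟩
  obtain ⟨r2, o2, s2⟩ : ∃ r2, Ord W E r2 ∧ r2 k c := by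
    obtain ⟨r, o⟩ := ihW E hAW
    rcases o.tot k (hKW k hk) c hcW hkc with h | h
    · exact ⟨r, o, h⟩
    · exact ⟨_, o.flip hAW, h⟩
  have s3 : ∀ a ∈ K, r2 a c := fun a ha => o2.ok c hcW k (hKW k hk) a (hKW a ha) (hKK k hk a ha) s2
  let π : X → X := fun y => if y ∈ K then k else y
  have π1 : ∀ y ∈ K, π y = k := fun y hy => if_pos hy
  have π2 : ∀ y, y ∉ K → π y = y := fun y hy => if_neg hy
  have πY : ∀ y ∈ Z, π y ∈ Y := by
    intro y hy
    by_cases h : y ∈ K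
    · rwa [π1 y h]
    · rw [π2 y h]; exact hoY y hy h
  refine ⟨fun a b => r1 (π a) (π b) ∨ (a ∈ K ∧ b ∈ K ∧ r2 a b), ?_, ?_, ?_, ?_⟩
  · rintro a ha (h | ⟨h, -, h'⟩)
    · exact o1.irr _ (πY a ha) h
    · exact o2.irr a (hKW a h) h'
  · rintro a ha b hb d hd (h | ⟨h1, h2, h3⟩) (h' | ⟨h4, h5, h6⟩)
    · exact Or.inl (o1.trans _ (πY a ha) _ (πY b hb) _ (πY d hd) h h')
    · left; rwa [π1 d h5, ← π1 b h4]
    · left; rwa [π1 a h1, ← π1 b h2]
    · exact Or.inr ⟨h1, h5, o2.trans a (hKW a h1) b (hKW b h2) d (hKW d h5) h3 h6⟩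
  · intro a ha b hb hab
    by_cases h : a ∈ K ∧ b ∈ K
    · rcases o2.tot a (hKW a h.1) b (hKW b h.2) hab with h' | h'
      · exact Or.inl (Or.inr ⟨h.1, h.2, h'⟩)
      · exact Or.inr (Or.inr ⟨h.2, h.1, h'⟩)
    · have : π a ≠ π b := by
        by_cases h1 : a ∈ K <;> by_cases h2 : b ∈ K
        · exact absurd ⟨h1, h2⟩ h
        · rw [π1 a h1, π2 b h2]; exact fun h3 => h2 (h3 ▸ hk)
        · rw [π2 a h1, π1 b h2]; exact fun h3 => h1 (h3 ▸ hk)
        · rwa [π2 a h1, π2 b h2]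
      exact (o1.tot _ (πY a ha) _ (πY b hb) this).imp Or.inl Or.inl
  · intro e he a ha b hb h hr
    by_cases heK : e ∈ K
    · have heW := hKW e heK
      have no1 : ∀ u ∈ K, E e u c → ¬ r2 u e := fun u hu h1 h2 =>
        o2.irr c hcW (o2.trans c hcW e heW c hcW (o2.ok e heW u (hKW u hu) c hcW h1 h2) (s3 e heK))
      have no2 : ∀ u ∈ Z, u ∉ K → E e u c → ¬ r1 u k := fun u hu huK h1 h2 =>
        o1.irr c hcY (o1.trans c hcY k hkY c hcY
          (o1.ok k hkY u (hoY u hu huK) c hcY ((hE'k _ _).2 ⟨huK, hcK, e, heK, h1⟩) h2) s1)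
      rw [π1 e heK] at hr ⊢
      by_cases haK : a ∈ K <;> by_cases hbK : b ∈ K
      · rcases hr with hr | ⟨-, -, hr⟩
        · rw [π1 a haK] at hr; exact absurd hr (o1.irr k hkY)
        · exact Or.inr ⟨hbK, heK, o2.ok e heW a (hKW a haK) b (hKW b hbK) h hr⟩
      · exfalso
        rcases hr with hr | ⟨-, -, hr⟩
        · rw [π1 a haK] at hr; exact o1.irr k hkY hr
        · exact no1 a haK (hlink e he a haK b hb hbK h) hr
      · exfalso
        rcases hr with hr | ⟨hr, -⟩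
        · rw [π2 a haK] at hr
          exact no2 a ha haK (hE.trans e he a ha b hb c hc h
            (hlink e he b hbK a ha haK (hE.symm e he a ha b hb h))) hr
        · exact haK hr
      · rcases hr with hr | ⟨hr, -⟩
        · rw [π2 a haK] at hr
          rw [π2 b hbK]
          exact Or.inl (o1.ok k hkY a (hoY a ha haK) b (hoY b hb hbK)
            ((hE'k _ _).2 ⟨haK, hbK, e, heK, h⟩) hr)
        · exact absurd hr haK
    · have hek : e ≠ k := fun h => heK (h ▸ hk)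
      rw [π2 e heK] at hr ⊢
      rcases hr with hr | ⟨-, hr, -⟩
      · left
        refine o1.ok e (hoY e he heK) _ (πY a ha) _ (πY b hb) ((hE'n e hek _ _).2 ?_) hr
        have t1 : E e (π a) b := by
          by_cases haK : a ∈ K
          · rw [π1 a haK]; exact hE.trans e he k hkZ a ha b hb (hout e he heK k hk a haK) h
          · rwa [π2 a haK]
        by_cases hbK : b ∈ K
        · rw [π1 b hbK]
          exact hE.trans e he _ (hYZ _ (πY a ha)) b hb k hkZ t1 (hout e he heK b hbK k hk)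
        · rwa [π2 b hbK]
      · exact absurd hr heK

lemma finite_order (n : ℕ) : ∀ (Z : Finset X), Z.card ≤ n → ∀ E, Ax Z E → ∃ r, Ord Z E r := by
  classical
  induction n with
  | zero =>
    intro Z hZ E _
    rw [Nat.le_zero, Finset.card_eq_zero] at hZ
    subst hZ
    exact ⟨fun _ _ => False, by simp, by simp, by simp, by simp⟩
  | succ n ih =>
    intro Z hZ E hE
    by_cases hgood : ∃ c ∈ Z, ∃ k ∈ Z, ∃ k' ∈ Z, ∃ x ∈ Z, E c k k' ∧ k' ≠ k ∧ x ≠ c ∧ ¬ E c k x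
    · obtain ⟨c, hc, k, hk, k', hk', x, hx, h1, h2, h3, h4⟩ := hgood
      set K := Z.filter (fun y => E c k y) with hK
      have hkK : k ∈ K := Finset.mem_filter.2
        ⟨hk, hE.trans c hc k hk k' hk' k hk h1 (hE.symm c hc k hk k' hk' h1)⟩
      refine glue Z K E hE c k hc hkK (fun y => Finset.mem_filter)
        (Z.filter fun y => y ∉ K ∨ y = k) (insert c K) (fun y => Finset.mem_filter)
        (fun y => by rw [Finset.mem_insert, or_comm]) (ih _ ?_) (ih _ ?_)
      · have : (Z.filter fun y => y ∉ K ∨ y = k).card < Z.card := by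
          refine Finset.card_lt_card ⟨Finset.filter_subset _ _, fun h => ?_⟩
          rcases (Finset.mem_filter.1 (h hk')).2 with h5 | h5
          · exact h5 (Finset.mem_filter.2 ⟨hk', h1⟩)
          · exact h2 h5
        omega
      · have : (insert c K).card < Z.card := by
          refine Finset.card_lt_card ⟨Finset.insert_subset hc (Finset.filter_subset _ _), fun h => ?_⟩
          rcases Finset.mem_insert.1 (h hx) with h5 | h5
          · exact h3 h5
          · exact h4 (Finset.mem_filter.1 h5).2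
        omega
    · push Not at hgood
      let F : X → Prop := fun c => c ∈ Z ∧ ∃ a ∈ Z, ∃ b ∈ Z, E c a b ∧ a ≠ b
      have full : ∀ c, F c → ∀ x ∈ Z, ∀ y ∈ Z, x ≠ c → y ≠ c → E c x y := by
        rintro c ⟨hc, a, ha, b, hb, h1, h2⟩ x hx y hy hxc hyc
        exact hE.trans c hc x hx a ha y hy
          (hE.symm c hc a ha x hx (hgood c hc a ha b hb x hx h1 h2.symm hxc))
          (hgood c hc a ha b hb y hy h1 h2.symm hyc)
      by_cases h1 : ∃ p q, F p ∧ F q ∧ p ≠ q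
      · obtain ⟨p, q, hp, hq, hpq⟩ := h1
        refine base Z E hE p q fun c hc a ha b hb h2 h3 => ?_
        have hF : F c := ⟨hc, a, ha, b, hb, h2, h3⟩
        by_contra hne
        push Not at hne
        exact hE.a2 p hp.1 q hq.1 c hc (full c hF p hp.1 q hq.1 hne.1.symm hne.2.symm)
          (full q hq p hp.1 c hc hpq hne.2) (full p hp q hq.1 c hc hpq.symm hne.1)
      · push Not at h1
        by_cases h2 : ∃ p, F p
        · obtain ⟨p, hp⟩ := h2
          exact base Z E hE p p fun c hc a ha b hb h2 h3 =>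
            Or.inl (h1 c p ⟨hc, a, ha, b, hb, h2, h3⟩ hp)
        · rcases Z.eq_empty_or_nonempty with h3 | ⟨p, -⟩
          · subst h3
            exact ⟨fun _ _ => False, by simp, by simp, by simp, by simp⟩
          · exact base Z E hE p p fun c hc a ha b hb h4 h5 =>
              absurd ⟨c, hc, a, ha, b, hb, h4, h5⟩ h2

lemma linked_symm {R : X → X → Prop} {c a b : X} (h : Linked R c a b) : Linked R c b a := by
  induction h with
  | single h => obtain ⟨x, h1, h2, h3⟩ := h; exact .single ⟨x, h2, h1, h3⟩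
  | tail _ h ih => obtain ⟨x, h1, h2, h3⟩ := h; exact .head ⟨x, h2, h1, h3⟩ ih

lemma linked_ne {R : X → X → Prop} {c a b : X} (h : Linked R c a b) : b ≠ c := by
  rintro rfl
  cases h with
  | single h => obtain ⟨x, -, h2, h3⟩ := h; exact h3 h2
  | tail _ h => obtain ⟨x, -, h2, h3⟩ := h; exact h3 h2

lemma linked_a1 {R : X → X → Prop} {c a b : X} (d : X) (h : Linked R c a b) :
    Linked R d a b ∨ Linked R c a d := by
  induction h with
  | single h =>
    obtain ⟨x, h1, h2, h3⟩ := h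
    by_cases hd : R x d
    · exact Or.inr (.single ⟨x, h1, hd, h3⟩)
    · exact Or.inl (.single ⟨x, h1, h2, hd⟩)
  | tail h0 h ih =>
    obtain ⟨x, h1, h2, h3⟩ := h
    by_cases hd : R x d
    · exact Or.inr (.tail h0 ⟨x, h1, hd, h3⟩)
    · exact ih.imp_left fun h4 => .tail h4 ⟨x, h1, h2, hd⟩

lemma global_order (R : X → X → Prop) (h : NoAsteroid R) :
    ∃ r : X → X → Prop, (∀ a, ¬ r a a) ∧ (∀ a b c, r a b → r b c → r a c) ∧
      (∀ a b, a ≠ b → r a b ∨ r b a) ∧ ∀ x a b c, R x a → R x b → r a c → r c b → R x c := by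
  classical
  have h1 : ∀ Z : Finset X, ∃ r, Ord Z (Linked R) r := fun Z =>
    finite_order Z.card Z le_rfl _
      ⟨fun _ _ _ _ _ _ h => linked_symm h, fun _ _ _ _ _ _ _ _ h h' => Relation.TransGen.trans h h',
        fun _ _ _ _ h => linked_ne (linked_symm h) rfl, fun _ _ _ _ _ _ d _ h => linked_a1 d h,
        fun a _ b _ c _ h1 h2 h3 => h ⟨a, b, c, h1, h2, h3⟩⟩
  choose r hr using h1
  let U : Ultrafilter (Finset X) := Ultrafilter.of atTop
  have hU : ∀ a, ∀ᶠ Z in (U : Filter (Finset X)), a ∈ Z := fun a =>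
    (Ultrafilter.of_le atTop) ((eventually_ge_atTop {a}).mono fun Z hZ =>
      hZ (Finset.mem_singleton_self a))
  refine ⟨fun a b => ∀ᶠ Z in (U : Filter (Finset X)), r Z a b, ?_, ?_, ?_, ?_⟩
  · intro a ha
    obtain ⟨Z, h1, h2⟩ := (ha.and (hU a)).exists
    exact (hr Z).irr a h2 h1
  · intro a b c h1 h2
    filter_upwards [h1, h2, hU a, hU b, hU c] with Z g1 g2 ha hb hc
    exact (hr Z).trans a ha b hb c hc g1 g2
  · intro a b hab
    rw [← Ultrafilter.eventually_or]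
    filter_upwards [hU a, hU b] with Z ha hb
    exact (hr Z).tot a ha b hb hab
  · intro x a b c h1 h2 h3 h4
    by_contra hc
    obtain ⟨Z, ⟨⟨g1, g2⟩, ha, hb⟩, hc'⟩ := (((h3.and h4).and ((hU a).and (hU b))).and (hU c)).exists
    exact (hr Z).irr c hc' ((hr Z).trans c hc' b hb c hc' g2
      ((hr Z).ok c hc' a ha b hb (.single ⟨x, h1, h2, hc⟩) g1))

lemma cuts (U : ℕ → X → Prop) : ∃ g : X → ℝ, (∀ y, 0 ≤ g y ∧ g y ≤ 2) ∧
    ∀ y y', (∀ n, U n y' → U n y) →
      g y' ≤ g y ∧ ∀ n, U n y → ¬ U n y' → g y' + (1 / 2) ^ n ≤ g y := by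
  classical
  let t : X → ℕ → ℝ := fun y n => if U n y then (1 / 2) ^ n else 0
  have t0 : ∀ y n, 0 ≤ t y n := fun y n => by simp only [t]; split_ifs <;> positivity
  have t1 : ∀ y n, t y n ≤ (1 / 2) ^ n := fun y n => by
    simp only [t]; split_ifs
    · exact le_rfl
    · positivity
  have ts : ∀ y, Summable (t y) := fun y =>
    Summable.of_nonneg_of_le (t0 y) (t1 y) summable_geometric_two
  refine ⟨fun y => ∑' n, t y n, fun y => ⟨tsum_nonneg (t0 y), ?_⟩, fun y y' h => ?_⟩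
  · rw [← tsum_geometric_two]
    exact (ts y).tsum_le_tsum (t1 y) summable_geometric_two
  · have hle : ∀ n, t y' n ≤ t y n := fun n => by
      by_cases h1 : U n y'
      · simp only [t, if_pos h1, if_pos (h n h1), le_refl]
      · simp only [t, if_neg h1]; exact t0 y n
    refine ⟨(ts y').tsum_le_tsum hle (ts y), fun n h1 h2 => ?_⟩
    have h3 := ((ts y).sub (ts y')).le_tsum n fun m _ => sub_nonneg.2 (hle m)
    rw [(ts y).tsum_sub (ts y')] at h3
    simp only [t, if_pos h1, if_neg h2] at h3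
    simp only [t]
    linarith

lemma cofinal (S : Set X) (f : X → ℝ) :
    ∃ D ⊆ S, D.Countable ∧ ∀ x ∈ S, ∃ d ∈ D, f x ≤ f d := by
  classical
  by_cases h : ∃ m ∈ S, ∀ x ∈ S, f x ≤ f m
  · obtain ⟨m, hm, h⟩ := h
    exact ⟨{m}, Set.singleton_subset_iff.2 hm, Set.countable_singleton m,
      fun x hx => ⟨m, rfl, h x hx⟩⟩
  · push Not at h
    have h1 : ∀ q : {q : ℚ // ∃ d ∈ S, (q : ℝ) < f d}, ∃ d ∈ S, ((q : ℚ) : ℝ) < f d := fun q => q.2
    choose d hd using h1
    refine ⟨Set.range d, ?_, Set.countable_range d, fun x hx => ?_⟩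
    · rintro _ ⟨q, rfl⟩; exact (hd q).1
    · obtain ⟨x', hx', h2⟩ := h x hx
      obtain ⟨q, h3, h4⟩ := exists_rat_btwn h2
      exact ⟨d ⟨q, x', hx', h4⟩, ⟨_, rfl⟩, (h3.trans (hd ⟨q, x', hx', h4⟩).2).le⟩

end Order

theorem result (X : Type*) [Nonempty X] (R : X → X → Prop) :
    Representable R ↔ NoAsteroid R ∧ CountablyBased R := by
  classical
  constructor
  · rintro ⟨f, g, h, H⟩
    constructor
    · have st : ∀ c a b, Step R c a b → (g a < g c ∧ g b < g c) ∨ (g c < g a ∧ g c < g b) := by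
        rintro c a b ⟨x, h1, h2, h3⟩
        rw [H] at h1 h2 h3
        rcases le_or_gt (g c) (f x) with h4 | h4
        · right; constructor <;> linarith [h1.1, h2.1]
        · have h5 : h x ≤ g c := not_lt.1 fun h6 => h3 ⟨h4, h6⟩
          left; constructor <;> linarith [h1.2, h2.2]
      have li : ∀ c a b, Linked R c a b → (g a < g c ∧ g b < g c) ∨ (g c < g a ∧ g c < g b) := by
        intro c a b hl
        induction hl with
        | single h => exact st _ _ _ h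
        | tail _ h ih =>
          rcases ih with h1 | h1 <;> rcases st _ _ _ h with h2 | h2
          · exact Or.inl ⟨h1.1, h2.2⟩
          · exact absurd h1.2 (not_lt.2 h2.1.le)
          · exact absurd h1.2 (not_lt.2 h2.1.le)
          · exact Or.inr ⟨h1.1, h2.2⟩
      rintro ⟨a, b, c, h1, h2, h3⟩
      rcases li _ _ _ h1 with g1 | g1 <;> rcases li _ _ _ h2 with g2 | g2 <;>
        rcases li _ _ _ h3 with g3 | g3 <;> linarith [g1.1, g1.2, g2.1, g2.2, g3.1, g3.2]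
    · choose D1 a1 b1 c1 using fun q : ℚ × ℚ => cofinal {x | f x < q.1 ∧ (q.2 : ℝ) < h x} f
      choose D2 a2 b2 c2 using fun q : ℚ × ℚ =>
        cofinal {x | f x < q.1 ∧ (q.2 : ℝ) < h x} (fun x => - h x)
      refine ⟨(⋃ q, D1 q) ∪ ⋃ q, D2 q,
        (Set.countable_iUnion b1).union (Set.countable_iUnion b2), fun x y hxy => ?_⟩
      rw [H] at hxy
      obtain ⟨p, p1, p2⟩ := exists_rat_btwn hxy.1
      obtain ⟨q, q1, q2⟩ := exists_rat_btwn hxy.2
      obtain ⟨d, hd, hd'⟩ := c1 (p, q) x ⟨p1, q2⟩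
      obtain ⟨e, he, he'⟩ := c2 (p, q) x ⟨p1, q2⟩
      have hd2 := a1 (p, q) hd
      have he2 := a2 (p, q) he
      refine ⟨d, Or.inl (Set.mem_iUnion.2 ⟨_, hd⟩), e, Or.inr (Set.mem_iUnion.2 ⟨_, he⟩),
        (H _ _).2 ⟨hd2.1.trans p2, q1.trans hd2.2⟩, (H _ _).2 ⟨he2.1.trans p2, q1.trans he2.2⟩,
        fun z h1 h2 => (H _ _).2 ⟨?_, ?_⟩⟩
      · linarith [((H _ _).1 h1).1]
      · linarith [((H _ _).1 h2).2]
  · rintro ⟨hA, D, hD, hB⟩
    obtain ⟨r, irr, tr, tot, conv⟩ := global_order R hA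
    obtain ⟨x0⟩ := ‹Nonempty X›
    obtain ⟨s, hs⟩ := (hD.insert x0).exists_eq_range ⟨x0, Set.mem_insert _ _⟩
    have hs' : ∀ d ∈ D, ∃ n, s n = d := fun d hd => by
      have : d ∈ Set.range s := hs ▸ Set.mem_insert_of_mem _ hd
      exact this
    obtain ⟨g1, b1, m1⟩ := cuts fun n y => ∃ z, R (s n) z ∧ (z = y ∨ r z y)
    obtain ⟨g2, b2, m2⟩ := cuts fun n y => ∀ z, R (s n) z → r z y
    have u1 : ∀ y' y, r y' y → ∀ n, (∃ z, R (s n) z ∧ (z = y' ∨ r z y')) →
        ∃ z, R (s n) z ∧ (z = y ∨ r z y) := by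
      rintro y' y h n ⟨z, h1, rfl | h2⟩
      · exact ⟨z, h1, Or.inr h⟩
      · exact ⟨z, h1, Or.inr (tr _ _ _ h2 h)⟩
    have u2 : ∀ y' y, r y' y → ∀ n, (∀ z, R (s n) z → r z y') → ∀ z, R (s n) z → r z y :=
      fun y' y h n h1 z hz => tr _ _ _ (h1 z hz) h
    set g : X → ℝ := fun y => g1 y + g2 y with hg
    have gap1 : ∀ n y y', R (s n) y → ¬ R (s n) y' → r y' y → g y' + (1 / 2) ^ n ≤ g y := by
      intro n y y' h1 h2 h3
      have e1 := (m1 y y' (u1 y' y h3)).2 n ⟨y, h1, Or.inl rfl⟩ (by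
        rintro ⟨z, h4, rfl | h5⟩
        · exact h2 h4
        · exact h2 (conv _ z y y' h4 h1 h5 h3))
      have e2 := (m2 y y' (u2 y' y h3)).1
      simp only [hg]; linarith
    have gap2 : ∀ n y y', R (s n) y → ¬ R (s n) y' → r y y' → g y + (1 / 2) ^ n ≤ g y' := by
      intro n y y' h1 h2 h3
      have e1 := (m2 y' y (u2 y y' h3)).2 n (by
        intro z hz
        rcases tot z y' (fun h => h2 (h ▸ hz)) with h4 | h4
        · exact h4
        · exact absurd (conv _ y z y' h1 hz h3 h4) h2) (fun h => irr y (h y h1))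
      have e2 := (m1 y' y (u1 y y' h3)).1
      simp only [hg]; linarith
    have g0 : ∀ y, 0 ≤ g y ∧ g y ≤ 4 := fun y => by
      simp only [hg]; constructor <;> linarith [(b1 y).1, (b1 y).2, (b2 y).1, (b2 y).2]
    have gap : ∀ x y, R x y → ∃ δ > (0 : ℝ), δ ≤ 1 ∧ ∀ y', ¬ R x y' →
        (r y' y → g y' + δ ≤ g y) ∧ (r y y' → g y + δ ≤ g y') := by
      intro x y hxy
      obtain ⟨d, hd, e, he, h1, h2, h3⟩ := hB x y hxy
      obtain ⟨n, rfl⟩ := hs' d hd
      obtain ⟨m, rfl⟩ := hs' e he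
      refine ⟨min ((1 / 2) ^ n) ((1 / 2) ^ m), by positivity,
        (min_le_left _ _).trans (pow_le_one₀ (by norm_num) (by norm_num)), fun y' h4 => ?_⟩
      have l1 := min_le_left ((1 / 2 : ℝ) ^ n) ((1 / 2) ^ m)
      have l2 := min_le_right ((1 / 2 : ℝ) ^ n) ((1 / 2) ^ m)
      by_cases h5 : R (s n) y'
      · have h6 : ¬ R (s m) y' := fun h => h4 (h3 y' h5 h)
        exact ⟨fun h => by linarith [gap1 m y y' h2 h6 h], fun h => by linarith [gap2 m y y' h2 h6 h]⟩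
      · exact ⟨fun h => by linarith [gap1 n y y' h1 h5 h], fun h => by linarith [gap2 n y y' h1 h5 h]⟩
    let L : X → Set ℝ := fun x => insert (-1) (g '' {y' | ¬ R x y' ∧ ∃ y0, R x y0 ∧ r y' y0})
    let T : X → Set ℝ := fun x => insert 5 (g '' {y' | ¬ R x y' ∧ ∃ y0, R x y0 ∧ r y0 y'})
    have bL : ∀ x, BddAbove (L x) := fun x => ⟨4, by
      rintro _ (rfl | ⟨y, -, rfl⟩)
      · norm_num
      · exact (g0 y).2⟩
    have bT : ∀ x, BddBelow (T x) := fun x => ⟨0, by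
      rintro _ (rfl | ⟨y, -, rfl⟩)
      · norm_num
      · exact (g0 y).1⟩
    refine ⟨fun x => sSup (L x), g, fun x => if ∃ y0, R x y0 then sInf (T x) else -1,
      fun x y => ⟨fun hxy => ?_, fun hxy => ?_⟩⟩
    · obtain ⟨δ, d0, d1, hδ⟩ := gap x y hxy
      beta_reduce
      rw [if_pos (show ∃ y0, R x y0 from ⟨y, hxy⟩)]
      constructor
      · have : sSup (L x) ≤ g y - δ := by
          refine csSup_le ⟨_, Set.mem_insert _ _⟩ ?_
          rintro _ (rfl | ⟨y', ⟨h1, y0, h2, h3⟩, rfl⟩)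
          · linarith [(g0 y).1]
          · rcases tot y' y (fun h => h1 (h ▸ hxy)) with h4 | h4
            · linarith [(hδ y' h1).1 h4]
            · exact absurd (conv x y y0 y' hxy h2 h4 h3) h1
        linarith
      · have : g y + δ ≤ sInf (T x) := by
          refine le_csInf ⟨_, Set.mem_insert _ _⟩ ?_
          rintro _ (rfl | ⟨y', ⟨h1, y0, h2, h3⟩, rfl⟩)
          · linarith [(g0 y).2]
          · rcases tot y y' (fun h => h1 (h ▸ hxy)) with h4 | h4
            · exact (hδ y' h1).2 h4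
            · exact absurd (conv x y0 y y' h2 hxy h3 h4) h1
        linarith
    · by_contra hn
      obtain ⟨h1, h2⟩ := hxy
      beta_reduce at h1 h2
      by_cases h3 : ∃ y0, R x y0
      · rw [if_pos h3] at h2
        obtain ⟨y0, h4⟩ := h3
        rcases tot y y0 (fun h => hn (h ▸ h4)) with h5 | h5
        · exact absurd (le_csSup (bL x) (Or.inr ⟨y, ⟨hn, y0, h4, h5⟩, rfl⟩)) (not_le.2 h1)
        · exact absurd (csInf_le (bT x) (Or.inr ⟨y, ⟨hn, y0, h4, h5⟩, rfl⟩)) (not_le.2 h2)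
      · rw [if_neg h3] at h2
        linarith [(g0 y).1]

end Pool.Agent.Results.MP_a721b7_an.Char
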